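import Pool.Agent.Helper82.CN.St

set_option autoImplicit false

namespace Pool.Agent.Helper46.CN

open Finset Filter Pool.Agent.Helper82.CN

private theorem bb_pos_INC (p : ℝ) (h0 : 0 < p) (h1 : p < 1) : 0 < bb p := by
  unfold bb
  apply Real.log_pos
  rw [lt_div_iff₀ (by linarith)]
  linarith

private theorem al_big_INC (p : ℝ) (h0 : 0 < p) (h1 : p < 1) :
    ∃ n0 : ℕ, ∀ n : ℕ, n0 ≤ n → 3 ≤ al p n ∧ al p n ≤ n := by
  have hb := bb_pos_INC p h0 h1
  set β := bb p with hβ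
  have hlog : Tendsto (fun n : ℕ => Real.log (n : ℝ)) atTop atTop :=
    Real.tendsto_log_atTop.comp tendsto_natCast_atTop_atTop
  have ho := (Real.isLittleO_log_id_atTop.bound (show (0 : ℝ) < β / 4 by positivity))
  have ho' : ∀ᶠ n : ℕ in atTop, Real.log (n : ℝ) ≤ β / 4 * n := by
    have := tendsto_natCast_atTop_atTop (R := ℝ) |>.eventually ho
    filter_upwards [this, eventually_ge_atTop 1] with n hn hn1
    have h2 : (0 : ℝ) ≤ Real.log (n : ℝ) := Real.log_natCast_nonneg n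
    simpa [abs_of_nonneg h2] using hn
  have e1 := hlog.eventually_ge_atTop (max β (β * (2 + |2 * (1 - Real.log 2) / β| +
    2 * |Real.log (2 / β)| / β)))
  have e2 : ∀ᶠ n : ℕ in atTop, 2 * (|2 * (1 - Real.log 2) / β| + 1) ≤ (n : ℝ) :=
    tendsto_natCast_atTop_atTop.eventually_ge_atTop _
  obtain ⟨n0, hn0⟩ := eventually_atTop.1 (ho'.and (e1.and e2))
  refine ⟨n0, fun n hn => ?_⟩
  obtain ⟨h3, h4, h5⟩ := hn0 n hn
  set y := Real.log (n : ℝ) with hy
  have h6 : β ≤ y := le_trans (le_max_left _ _) h4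
  have h7 : β * (2 + |2 * (1 - Real.log 2) / β| + 2 * |Real.log (2 / β)| / β) ≤ y :=
    le_trans (le_max_right _ _) h4
  have hy0 : 0 < y := lt_of_lt_of_le hb h6
  have hval : al p (n : ℝ) = 2 * y / β - 2 * Real.log (y / β) / β +
      2 * (1 - Real.log 2) / β + 1 := rfl
  have habs := neg_abs_le (2 * (1 - Real.log 2) / β)
  have habs' := le_abs_self (2 * (1 - Real.log 2) / β)
  constructor
  · have h8 : Real.log (y / β) ≤ y / 2 - 1 + |Real.log (2 / β)| := by
      have : y / β = (y / 2) * (2 / β) := by field_simp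
      rw [this, Real.log_mul (by positivity) (by positivity)]
      have := Real.log_le_sub_one_of_pos (show 0 < y / 2 by positivity)
      have := le_abs_self (Real.log (2 / β))
      linarith
    have h9 : 2 * Real.log (y / β) / β ≤ y / β - 2 / β + 2 * |Real.log (2 / β)| / β := by
      rw [div_le_iff₀ hb]
      have : (y / β - 2 / β + 2 * |Real.log (2 / β)| / β) * β =
          y - 2 + 2 * |Real.log (2 / β)| := by field_simp
      rw [this]
      linarith
    have h10 : 2 + |2 * (1 - Real.log 2) / β| + 2 * |Real.log (2 / β)| / β ≤ y / β := by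
      rw [le_div_iff₀ hb]
      linarith
    have h11 : 2 * y / β = y / β + y / β := by ring
    have h12 : 0 < 2 / β := by positivity
    rw [hval]
    linarith
  · have h8 : 0 ≤ Real.log (y / β) := by
      apply Real.log_nonneg
      rw [le_div_iff₀ hb]
      linarith
    have h9 : 0 ≤ 2 * Real.log (y / β) / β := by positivity
    have h10 : 2 * y / β ≤ n / 2 := by
      rw [div_le_iff₀ hb]
      linarith
    rw [hval]
    linarith

private theorem step_INC (p δ : ℝ) (n : ℕ) (S L w : ℝ) (hn : 1 ≤ n) (h2 : 2 ≤ (n : ℝ) ^ δ)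
    (hL : L ≤ sn p n * √S) (hw : w ≤ 2)
    (hS : S ≤ (n : ℝ) ^ δ * ((n : ℝ) ^ (-w) + (n : ℝ) ^ (-(2 : ℝ)))) :
    L ≤ sn p n * (n : ℝ) ^ (-(w / 2) + δ) := by
  have hn1 : (1 : ℝ) ≤ n := by exact_mod_cast hn
  have hn0 : (0 : ℝ) < n := by linarith
  refine hL.trans (mul_le_mul_of_nonneg_left ?_ (Real.sqrt_nonneg _))
  have h3 : (n : ℝ) ^ (-(2 : ℝ)) ≤ (n : ℝ) ^ (-w) :=
    Real.rpow_le_rpow_of_exponent_le hn1 (by linarith)
  have h4 : 0 < (n : ℝ) ^ (-w) := Real.rpow_pos_of_pos hn0 _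
  have h5 : 0 < (n : ℝ) ^ δ := Real.rpow_pos_of_pos hn0 _
  have h6 : S ≤ ((n : ℝ) ^ (-(w / 2) + δ)) ^ 2 := by
    have e : ((n : ℝ) ^ (-(w / 2) + δ)) ^ 2 = (n : ℝ) ^ δ * ((n : ℝ) ^ δ * (n : ℝ) ^ (-w)) := by
      rw [← Real.rpow_natCast, ← Real.rpow_mul hn0.le, ← Real.rpow_add hn0, ← Real.rpow_add hn0]
      congr 1
      push_cast
      ring
    rw [e]
    refine hS.trans (mul_le_mul_of_nonneg_left ?_ h5.le)
    calc (n : ℝ) ^ (-w) + (n : ℝ) ^ (-(2 : ℝ)) ≤ 2 * (n : ℝ) ^ (-w) := by linarith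
      _ ≤ (n : ℝ) ^ δ * (n : ℝ) ^ (-w) := mul_le_mul_of_nonneg_right h2 h4.le
  calc √S ≤ √(((n : ℝ) ^ (-(w / 2) + δ)) ^ 2) := Real.sqrt_le_sqrt h6
    _ = (n : ℝ) ^ (-(w / 2) + δ) := Real.sqrt_sq (Real.rpow_pos_of_pos hn0 _).le

theorem tINC : StCov → StRho → StInc := by
  intro hC hR p δ h0 h1 hδ
  obtain ⟨n1, hn1⟩ := al_big_INC p h0 h1
  obtain ⟨n2, hn2⟩ := hR p 2 δ h0 h1 (by norm_num) hδ
  have e3 : ∀ᶠ n : ℕ in atTop, (2 : ℝ) ≤ (n : ℝ) ^ δ :=
    ((tendsto_rpow_atTop hδ).comp tendsto_natCast_atTop_atTop).eventually_ge_atTop _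
  obtain ⟨n3, hn3⟩ := eventually_atTop.1 e3
  refine ⟨max 1 (max n1 (max n2 n3)), fun n a hn ha ha' => ?_⟩
  have k0 : 1 ≤ n := le_trans (le_max_left _ _) hn
  have k1 : n1 ≤ n := le_trans (le_trans (le_max_left _ _) (le_max_right _ _)) hn
  have k2 : n2 ≤ n := le_trans (le_trans (le_trans (le_max_left _ _) (le_max_right _ _))
    (le_max_right _ _)) hn
  have k3 : n3 ≤ n := le_trans (le_trans (le_trans (le_max_right _ _) (le_max_right _ _))
    (le_max_right _ _)) hn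
  obtain ⟨b1, b2⟩ := hn1 n k1
  have b3 := hn3 n k3
  have a2 : 2 ≤ a := by
    have : (2 : ℝ) ≤ a := by linarith
    exact_mod_cast this
  have an : a ≤ n := by
    have : (a : ℝ) ≤ n := by linarith
    exact_mod_cast this
  have hcast : ((a - 1 : ℕ) : ℝ) = a - 1 := by
    push_cast [Nat.cast_sub (show 1 ≤ a by omega)]
    ring
  constructor
  · refine step_INC p δ n _ _ (al p n - a) k0 b3 (hC p n a h0.le h1 (by omega) an) (by linarith) ?_
    exact hn2 n a k2 (by rw [abs_le]; constructor <;> linarith)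
  · refine step_INC p δ n _ _ (al p n - a + 1) k0 b3
      (hC p n (a - 1) h0.le h1 (by omega) (by omega)) (by linarith) ?_
    have := hn2 n (a - 1) k2 (by rw [hcast, abs_le]; constructor <;> linarith)
    rw [hcast] at this
    have e : al p n - (a - 1) = al p n - a + 1 := by ring
    rw [e] at this
    exact this

end Pool.Agent.Helper46.CN
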